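import Pool.Agent.W182.PW.Tup

set_option autoImplicit false

/-!
# Primes in all intervals around a positive proportion of the integers

There are `c₁, c₂, K > 0` such that a positive proportion of all integers `n` is regular: every
interval `(a, b]` with `a ≤ n ≤ b` and `K log n ≤ b - a ≤ n` contains between `c₁ (b - a) / log n`
and `c₂ (b - a) / log n` primes.
-/

namespace Pool.Agent.Results.MP_45ff98_nt.RegularIntegers

open Finset Filter

/-- `n` is regular: every interval `(a, b]` with `a ≤ n ≤ b` of length between `K log n` and `n`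
contains between `c₁ (b - a) / log n` and `c₂ (b - a) / log n` primes. -/
def Regular (c₁ c₂ K : ℝ) (n : ℕ) : Prop :=
  ∀ a b : ℕ, a ≤ n → n ≤ b → K * Real.log n ≤ (b : ℝ) - a → (b : ℝ) - a ≤ n →
    c₁ * ((b : ℝ) - a) / Real.log n ≤ (((Finset.Ioc a b).filter Nat.Prime).card : ℝ) ∧
    (((Finset.Ioc a b).filter Nat.Prime).card : ℝ) ≤ c₂ * ((b : ℝ) - a) / Real.log n

lemma tup_empty (r : ℕ) (z : ℝ) (p : ℕ) : Pool.Agent.W182.PW.TupS ∅ r z p ↔ p.Prime := by
  unfold Pool.Agent.W182.PW.TupS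
  simp

lemma reg_eq (r : ℕ) (c₁ c₂ K : ℝ) (n : ℕ)
    (h : Pool.Agent.W182.PW.RegS (Pool.Agent.W182.PW.TupS ∅) 1 r c₁ c₂ K n) :
    Regular c₁ c₂ K n := by
  intro a b h1 h2 h3 h4
  have h5 := h a b h1 h2 (by rwa [pow_one]) h4
  rw [pow_one] at h5
  simp only [tup_empty] at h5
  convert h5 using 4

open Classical in
/-- **Primes in all intervals around a positive proportion of the integers.** For some positive
`c₁, c₂, K, κ` and all large `x` at least `κ x` of the integers `n` in `[1, x]` are regular. -/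
theorem result : ∃ (c₁ c₂ K κ : ℝ), 0 < c₁ ∧ 0 < c₂ ∧ 0 < K ∧ 0 < κ ∧
    ∀ᶠ x : ℕ in atTop,
      κ * x ≤ (((Finset.Icc 1 x).filter (fun n => Regular c₁ c₂ K n)).card : ℝ) := by
  obtain ⟨r, c₁, c₂, K, κ, h1, h2, h3, h4, h5⟩ := Pool.Agent.W182.PW.main_tuple ∅
    (by simp) (fun p hp => ⟨1, fun h => hp.one_lt.ne' (Nat.dvd_one.1 h), by simp⟩)
  refine ⟨c₁, c₂, K, κ, h1, h2, h3, h4, ?_⟩
  filter_upwards [h5] with x hx
  refine hx.trans ?_
  rw [Nat.cast_le]
  apply card_le_card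
  intro n hn
  rw [mem_filter] at hn ⊢
  exact ⟨hn.1, reg_eq r c₁ c₂ K n hn.2⟩

end Pool.Agent.Results.MP_45ff98_nt.RegularIntegers
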